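import Pool.Agent.Y990.CB.Fin

set_option autoImplicit false

open MeasureTheory Set

/-!
Site percolation on `Z^d`, `d ≥ 2`, at the critical point: connections between distant vertices
leave the boxes of radius proportional to the distance with a probability bounded from below, and if
there is an infinite cluster at the critical point, then the mean chemical distance grows faster
than linearly.
-/

namespace Pool.Agent.Results.MP_e13933_pr.ChemicalDistance

noncomputable section

/-- Vertices of `Z^d`. -/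
abbrev V (d : ℕ) : Type := Fin d → ℤ

/-- The box of radius `N` around the origin. -/
def box (d N : ℕ) : Set (V d) := {x | ∀ i, |x i| ≤ N}

/-- The open subgraph inside the region `S`: two vertices at Euclidean distance one are joined if
both are open (`ω x = true`) and in `S`. -/
def openGraph {d : ℕ} (ω : V d → Bool) (S : Set (V d)) : SimpleGraph (V d) where
  Adj x y := ∑ i, |x i - y i| = 1 ∧ (x ∈ S ∧ ω x = true) ∧ (y ∈ S ∧ ω y = true)
  symm := ⟨fun x y ⟨h1, h2, h3⟩ => ⟨by simpa only [abs_sub_comm] using h1, h3, h2⟩⟩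
  loopless := ⟨fun x h => by simpa using h.1⟩

/-- The open cluster of `x` inside the region `S` (empty if `x` is closed). -/
def cluster {d : ℕ} (ω : V d → Bool) (S : Set (V d)) (x : V d) : Set (V d) :=
  {y | (ω x = true ∧ x ∈ S) ∧ (openGraph ω S).Reachable x y}

/-- Site percolation with parameter `p`: all vertices are open with probability `p`,
independently. -/
def P (d : ℕ) (p : unitInterval) : Measure (V d → Bool) :=
  Measure.infinitePi (fun _ : V d =>
    ENNReal.ofReal (p : ℝ) • Measure.dirac true + ENNReal.ofReal (1 - (p : ℝ)) • Measure.dirac false)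

/-- The percolation probability `θ_d(p)`. -/
def theta (d : ℕ) (p : unitInterval) : ℝ := (P d p).real {ω | (cluster ω univ 0).Infinite}

/-- The critical point `p_c(d)`, the supremum of the parameters with `θ_d(p) = 0`. -/
def pc (d : ℕ) : unitInterval :=
  ⟨sSup {t : ℝ | ∃ q : unitInterval, (q : ℝ) = t ∧ theta d q = 0}, by
    constructor
    · apply Real.sSup_nonneg
      rintro x ⟨q, rfl, _⟩
      exact q.2.1
    · apply Real.sSup_le
      · rintro x ⟨q, rfl, _⟩
        exact q.2.2
      · exact zero_le_one⟩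

lemma nd_mem {d : ℕ} {ω : V d → Bool} {x y : V d} :
    (∀ c ∈ (Pool.Agent.Y990.CB.siteM d).nd x y, ω c = true) ↔ ω x = true ∧ ω y = true := by
  show (∀ c : V d, c ∈ ({x, y} : Finset (V d)) → ω c = true) ↔ _
  simp only [Finset.mem_insert, Finset.mem_singleton, forall_eq_or_imp, forall_eq]

open Pool.Agent.Y990.CB in
lemma adj_iff {d : ℕ} (ω : V d → Bool) (S : Set (V d)) (x y : V d) :
    (openGraph ω S).Adj x y ↔ (G (siteM d) ω S).Adj x y := by
  show (∑ i, |x i - y i| = 1 ∧ (x ∈ S ∧ ω x = true) ∧ (y ∈ S ∧ ω y = true)) ↔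
    (∑ i, |x i - y i| = 1 ∧ x ∈ S ∧ y ∈ S ∧ ∀ c ∈ (siteM d).nd x y, ω c = true)
  rw [nd_mem]
  tauto

open Pool.Agent.Y990.CB in
lemma graph_eq {d : ℕ} (ω : V d → Bool) (S : Set (V d)) :
    openGraph ω S = G (siteM d) ω S := by
  ext x y
  exact adj_iff ω S x y

open Pool.Agent.Y990.CB in
lemma cluster_sub {d : ℕ} (ω : V d → Bool) (S : Set (V d)) (x : V d) :
    cluster ω S x ⊆ cl (siteM d) ω S x := by
  rintro y ⟨-, h⟩
  rw [graph_eq] at h
  exact h

open Pool.Agent.Y990.CB in
/-- A vertex connected to a different vertex is open. -/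
lemma open_of {d : ℕ} {ω : V d → Bool} {S : Set (V d)} {x y : V d} (hxy : y ≠ x)
    (hr : (G (siteM d) ω S).Reachable x y) : ω x = true ∧ x ∈ S := by
  obtain ⟨q⟩ := hr
  cases q with
  | nil => exact absurd rfl hxy
  | cons hadj _ => exact ⟨(nd_mem.1 hadj.2.2.2).1, hadj.2.1⟩

open Pool.Agent.Y990.CB in
lemma infinite_iff {d : ℕ} (ω : V d → Bool) (x : V d) :
    (cluster ω univ x).Infinite ↔ ω ∈ Perc (siteM d) x := by
  constructor
  · intro h
    exact h.mono (cluster_sub ω univ x)
  · intro h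
    obtain ⟨y, hy, hyx⟩ := Set.Infinite.exists_notMem_finset h {x}
    have hyx' : y ≠ x := by simpa using hyx
    have hx := open_of hyx' hy
    refine Set.Infinite.mono ?_ h
    intro z hz
    refine ⟨hx, ?_⟩
    rw [graph_eq]
    exact hz

open Pool.Agent.Y990.CB in
lemma P_eq (d : ℕ) (p : unitInterval) : P d p = mu (siteM d) p := rfl

open Pool.Agent.Y990.CB in
lemma theta_eq (d : ℕ) (p : unitInterval) : theta d p = th (siteM d) p := by
  unfold theta th
  rw [P_eq]
  congr 1
  ext ω
  exact infinite_iff ω 0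

open Pool.Agent.Y990.CB in
lemma pc_eq (d : ℕ) : pc d = Pool.Agent.Y990.CB.pc (siteM d) := by
  apply Subtype.ext
  show sSup {t : ℝ | ∃ q : unitInterval, (q : ℝ) = t ∧ theta d q = 0} =
    sSup {x : ℝ | ∃ q : unitInterval, (q : ℝ) = x ∧ th (siteM d) q = 0}
  simp only [theta_eq]

open Pool.Agent.Y990.CB in
lemma box_eq (d N : ℕ) : box d N = Bo (0 : V d) N := by
  ext x
  simp only [box, Bo, mem_ofPred_eq, Pi.zero_apply, sub_zero]

/-- The sup norm of a vertex. -/
def nrm {d : ℕ} (v : V d) : ℕ := Finset.univ.sup (fun i => (v i).natAbs)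

/-- The chemical distance of `0` and `v`: the length of a shortest open path from `0` to `v` (and
`0` if there is no open path). -/
def chem {d : ℕ} (ω : V d → Bool) (v : V d) : ℕ := (openGraph ω univ).dist 0 v

open Pool.Agent.Y990.CB in
lemma chem_eq {d : ℕ} (ω : V d → Bool) (v : V d) : chem ω v = (G (siteM d) ω univ).dist 0 v := by
  unfold chem
  rw [graph_eq]

open Pool.Agent.Y990.CB in
lemma mem_cluster {d : ℕ} (ω : V d → Bool) (S : Set (V d)) {v : V d} (hv : v ≠ 0)
    (h : (G (siteM d) ω S).Reachable 0 v) : v ∈ cluster ω S 0 := by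
  refine ⟨open_of hv h, ?_⟩
  rw [graph_eq]
  exact h

lemma ne_zero_of {d : ℕ} {v : V d} (h : 1 ≤ nrm v) : v ≠ 0 := by
  rintro rfl
  have : nrm (0 : V d) = 0 := by
    unfold nrm
    apply Nat.le_zero.1
    exact Finset.sup_le fun i _ => by simp
  omega

section Lib

open Pool.Agent.Y990.CB

variable {d : ℕ}

lemma lib_B (hd : 2 ≤ d) (R : ℕ) (ε : ℝ) (hR : 1 ≤ R) (hε : 0 < ε) : ∃ N0 : ℕ, ∀ v : V d,
    N0 ≤ nrm v → (P d (Pool.Agent.Y990.CB.pc (siteM d))).real {ω | (G (siteM d) ω (Bo 0 (R * nrm v))).Reachable 0 v} ≤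
      (1 - 1 / (2 * 10 ^ 14 * R)) * th (siteM d) (Pool.Agent.Y990.CB.pc (siteM d)) ^ 2 + ε :=
  finB hd (siteM d) nd_site R hR ε hε

lemma lib_F (h : 0 < th (siteM d) (Pool.Agent.Y990.CB.pc (siteM d))) (v : V d) :
    th (siteM d) (Pool.Agent.Y990.CB.pc (siteM d)) ^ 2 ≤
      (P d (Pool.Agent.Y990.CB.pc (siteM d))).real {ω | (G (siteM d) ω univ).Reachable 0 v} :=
  Pool.Agent.Y809.CB.fkg s_two d (siteM d) (Pool.Agent.Y990.CB.pc (siteM d)) v (pc_pos_of _ nd_site h)

lemma lib_D (hd : 2 ≤ d) (h : 0 < th (siteM d) (Pool.Agent.Y990.CB.pc (siteM d))) (A : ℕ) : ∃ N0 : ℕ, ∀ v : V d,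
    N0 ≤ nrm v → ((A * nrm v : ℕ) : ENNReal) ≤
      ∫⁻ ω : V d → Bool, ((G (siteM d) ω univ).dist 0 v : ENNReal) ∂(P d (Pool.Agent.Y990.CB.pc (siteM d))) :=
  finD hd (siteM d) nd_site h A

end Lib

/-- **Connections and chemical distance at the critical point.**  Let `d ≥ 2`.

* For all `R ≥ 1` and `ε > 0` and all vertices `v` of sufficiently large sup norm `|v|`, the
  `P_{p_c}`-probability that `0` and `v` are in the same open cluster of the box of radius `R |v|`
  is at most `(1 - 1 / (2 10 ^ 14 R)) θ(p_c) ^ 2 + ε`, and the `P_{p_c}`-probability that `0` and `v`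
  are in the same open cluster of `Z^d`, but have chemical distance larger than `R |v|`, is at least
  `θ(p_c) ^ 2 / (2 10 ^ 14 R) - ε`.
* If `θ(p_c) > 0`, then the mean chemical distance of `0` and `v` at `p_c` is at least `A |v|` for
  every `A` and all `v` of sufficiently large norm. -/
theorem result (d : ℕ) (hd : 2 ≤ d) :
    (∀ (R : ℕ) (ε : ℝ), 1 ≤ R → 0 < ε → ∃ N0 : ℕ, ∀ v : V d, N0 ≤ nrm v →
      (P d (pc d)).real {ω | v ∈ cluster ω (box d (R * nrm v)) 0} ≤
        (1 - 1 / (2 * 10 ^ 14 * R)) * theta d (pc d) ^ 2 + ε ∧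
      theta d (pc d) ^ 2 / (2 * 10 ^ 14 * R) - ε ≤
        (P d (pc d)).real {ω | v ∈ cluster ω univ 0 ∧ R * nrm v < chem ω v}) ∧
    (0 < theta d (pc d) → ∀ A : ℕ, ∃ N0 : ℕ, ∀ v : V d, N0 ≤ nrm v →
      ((A * nrm v : ℕ) : ENNReal) ≤ ∫⁻ ω, (chem ω v : ENNReal) ∂(P d (pc d))) := by
  have hP : ∀ p : unitInterval, IsProbabilityMeasure (P d p) := fun p => by
    rw [P_eq]
    exact inferInstanceAs (IsProbabilityMeasure (Pool.Agent.W783.PC.pm (fun _ : V d => p)))
  rw [theta_eq, pc_eq]
  set p := Pool.Agent.Y990.CB.pc (Pool.Agent.Y990.CB.siteM d) with hp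
  have := hP p
  change _ ∧ _
  set t := Pool.Agent.Y990.CB.th (Pool.Agent.Y990.CB.siteM d) p with ht
  constructor
  · intro R ε hR hε
    obtain ⟨N0, h⟩ := lib_B hd R ε hR hε
    refine ⟨max N0 1, fun v hv => ?_⟩
    have hv0 := h v ((le_max_left _ _).trans hv)
    rw [← hp, ← ht] at hv0
    have hv1 : v ≠ 0 := ne_zero_of ((le_max_right _ _).trans hv)
    constructor
    · refine le_trans (measureReal_mono ?_ (measure_ne_top _ _)) hv0
      intro ω hω
      have h1 := cluster_sub ω _ 0 hω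
      rw [box_eq] at h1
      exact h1
    · set B : Set (V d → Bool) := {ω | (Pool.Agent.Y990.CB.G (Pool.Agent.Y990.CB.siteM d) ω
        (Pool.Agent.Y990.CB.Bo 0 (R * nrm v))).Reachable 0 v} with hB
      set A : Set (V d → Bool) := {ω | v ∈ cluster ω univ 0 ∧ R * nrm v < chem ω v} with hA
      have h3 : (P d p).real {ω | (Pool.Agent.Y990.CB.G (Pool.Agent.Y990.CB.siteM d) ω
          univ).Reachable 0 v} ≤ (P d p).real A + (P d p).real B := by
        refine (measureReal_mono ?_ (measure_ne_top _ _)).trans (measureReal_union_le _ _)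
        intro ω hω
        by_cases h : ω ∈ B
        · exact Or.inr h
        · refine Or.inl ⟨mem_cluster ω univ hv1 hω, ?_⟩
          rw [chem_eq]
          exact Pool.Agent.Y990.CB.dist_gt (M := Pool.Agent.Y990.CB.siteM d) hω h
      have h4 : (0 : ℝ) ≤ (P d p).real A := measureReal_nonneg
      rcases eq_or_lt_of_le (show (0 : ℝ) ≤ t from measureReal_nonneg) with h0 | h0
      · rw [← h0]
        have h5 : (0 : ℝ) ^ 2 / (2 * 10 ^ 14 * R) - ε = - ε := by ring
        rw [h5]
        linarith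
      · have hf := lib_F (d := d) h0 v
        rw [← hp, ← ht] at hf
        have e : (1 - 1 / (2 * 10 ^ 14 * (R : ℝ))) * t ^ 2 = t ^ 2 - t ^ 2 / (2 * 10 ^ 14 * R) := by
          ring
        rw [e] at hv0
        linarith
  · intro hθ A
    obtain ⟨N0, h⟩ := lib_D hd hθ A
    refine ⟨N0, fun v hv => (h v hv).trans (le_of_eq ?_)⟩
    refine lintegral_congr fun ω => ?_
    rw [chem_eq]

end

end Pool.Agent.Results.MP_e13933_pr.ChemicalDistance
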