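import Pool.Agent.Y990.CB.Fat

set_option autoImplicit false

open MeasureTheory Set

/-!
Site percolation on `Z^d`, `d ≥ 2`, at the critical point: with probability bounded away from zero
no open cluster of a large box comes close, on a scale which may be a power of the size of the box,
to more than half of the vertices.
-/

namespace Pool.Agent.Results.MP_e13933_pr.HalfDenseClusters

noncomputable section

/-- Vertices of `Z^d`. -/
abbrev V (d : ℕ) : Type := Fin d → ℤ

/-- The box of radius `N` around the vertex `z`. -/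
def box {d : ℕ} (z : V d) (N : ℕ) : Set (V d) := {x | ∀ i, |x i - z i| ≤ N}

/-- The open subgraph inside the region `S`: two vertices at Euclidean distance one are joined if
both are open (`ω x = true`) and in `S`. -/
def openGraph {d : ℕ} (ω : V d → Bool) (S : Set (V d)) : SimpleGraph (V d) where
  Adj x y := ∑ i, |x i - y i| = 1 ∧ (x ∈ S ∧ ω x = true) ∧ (y ∈ S ∧ ω y = true)
  symm := ⟨fun x y ⟨h1, h2, h3⟩ => ⟨by simpa only [abs_sub_comm] using h1, h3, h2⟩⟩
  loopless := ⟨fun x h => by simpa using h.1⟩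

/-- The open cluster of `x` inside the region `S` (empty if `x` is closed). -/
def cluster {d : ℕ} (ω : V d → Bool) (S : Set (V d)) (x : V d) : Set (V d) :=
  {y | (ω x = true ∧ x ∈ S) ∧ (openGraph ω S).Reachable x y}

/-- Site percolation with parameter `p`: all vertices are open with probability `p`,
independently. -/
def P (d : ℕ) (p : unitInterval) : Measure (V d → Bool) :=
  Measure.infinitePi (fun _ : V d =>
    ENNReal.ofReal (p : ℝ) • Measure.dirac true + ENNReal.ofReal (1 - (p : ℝ)) • Measure.dirac false)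

/-- The percolation probability `θ_d(p)`. -/
def theta (d : ℕ) (p : unitInterval) : ℝ := (P d p).real {ω | (cluster ω univ 0).Infinite}

/-- The critical point `p_c(d)`, the supremum of the parameters with `θ_d(p) = 0`. -/
def pc (d : ℕ) : unitInterval :=
  ⟨sSup {t : ℝ | ∃ q : unitInterval, (q : ℝ) = t ∧ theta d q = 0}, by
    constructor
    · apply Real.sSup_nonneg
      rintro x ⟨q, rfl, _⟩
      exact q.2.1
    · apply Real.sSup_le
      · rintro x ⟨q, rfl, _⟩
        exact q.2.2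
      · exact zero_le_one⟩

/-- The vertices of the box of radius `N` around the origin at distance (in the sup norm) at most
`k` from the set `A`. -/
def near {d : ℕ} (N k : ℕ) (A : Set (V d)) : Set (V d) :=
  {y | y ∈ box 0 N ∧ ∃ u ∈ A, u ∈ box y k}

lemma nd_mem {d : ℕ} {ω : V d → Bool} {x y : V d} :
    (∀ c ∈ (Pool.Agent.Y990.CB.siteM d).nd x y, ω c = true) ↔ ω x = true ∧ ω y = true := by
  show (∀ c : V d, c ∈ ({x, y} : Finset (V d)) → ω c = true) ↔ _
  simp only [Finset.mem_insert, Finset.mem_singleton, forall_eq_or_imp, forall_eq]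

open Pool.Agent.Y990.CB in
lemma adj_iff {d : ℕ} (ω : V d → Bool) (S : Set (V d)) (x y : V d) :
    (openGraph ω S).Adj x y ↔ (G (siteM d) ω S).Adj x y := by
  show (∑ i, |x i - y i| = 1 ∧ (x ∈ S ∧ ω x = true) ∧ (y ∈ S ∧ ω y = true)) ↔
    (∑ i, |x i - y i| = 1 ∧ x ∈ S ∧ y ∈ S ∧ ∀ c ∈ (siteM d).nd x y, ω c = true)
  rw [nd_mem]
  tauto

open Pool.Agent.Y990.CB in
lemma graph_eq {d : ℕ} (ω : V d → Bool) (S : Set (V d)) :
    openGraph ω S = G (siteM d) ω S := by
  ext x y
  exact adj_iff ω S x y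

open Pool.Agent.Y990.CB in
lemma cluster_sub {d : ℕ} (ω : V d → Bool) (S : Set (V d)) (x : V d) :
    cluster ω S x ⊆ cl (siteM d) ω S x := by
  rintro y ⟨-, h⟩
  rw [graph_eq] at h
  exact h

open Pool.Agent.Y990.CB in
/-- A vertex connected to a different vertex is open. -/
lemma open_of {d : ℕ} {ω : V d → Bool} {S : Set (V d)} {x y : V d} (hxy : y ≠ x)
    (hr : (G (siteM d) ω S).Reachable x y) : ω x = true ∧ x ∈ S := by
  obtain ⟨q⟩ := hr
  cases q with
  | nil => exact absurd rfl hxy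
  | cons hadj _ => exact ⟨(nd_mem.1 hadj.2.2.2).1, hadj.2.1⟩

open Pool.Agent.Y990.CB in
lemma infinite_iff {d : ℕ} (ω : V d → Bool) (x : V d) :
    (cluster ω univ x).Infinite ↔ ω ∈ Perc (siteM d) x := by
  constructor
  · intro h
    exact h.mono (cluster_sub ω univ x)
  · intro h
    obtain ⟨y, hy, hyx⟩ := Set.Infinite.exists_notMem_finset h {x}
    have hyx' : y ≠ x := by simpa using hyx
    have hx := open_of hyx' hy
    refine Set.Infinite.mono ?_ h
    intro z hz
    refine ⟨hx, ?_⟩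
    rw [graph_eq]
    exact hz

open Pool.Agent.Y990.CB in
lemma P_eq (d : ℕ) (p : unitInterval) : P d p = mu (siteM d) p := rfl

open Pool.Agent.Y990.CB in
lemma theta_eq (d : ℕ) (p : unitInterval) : theta d p = th (siteM d) p := by
  unfold theta th
  rw [P_eq]
  congr 1
  ext ω
  exact infinite_iff ω 0

open Pool.Agent.Y990.CB in
lemma pc_eq (d : ℕ) : pc d = Pool.Agent.Y990.CB.pc (siteM d) := by
  apply Subtype.ext
  show sSup {t : ℝ | ∃ q : unitInterval, (q : ℝ) = t ∧ theta d q = 0} =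
    sSup {x : ℝ | ∃ q : unitInterval, (q : ℝ) = x ∧ th (siteM d) q = 0}
  simp only [theta_eq]

open Pool.Agent.Y990.CB in
lemma box_eq {d : ℕ} (z : V d) (N : ℕ) : box z N = Bo z N := rfl

/-- **No cluster is dense, at a polynomial scale, in more than half of a box at the critical
point.**  For every `d ≥ 2` there is `C` such that for all `k`, `N`, `R ≥ 1` and `0 < ε ≤ 1` with
`C (k + 1) ^ (2 d ^ 2 + 3 d) R ≤ ε ^ 2 √N`, with `P_{p_c}`-probability at least `ε / (10 ^ 14 R)`
every open cluster of the box of radius `R N` has distance at most `k` from at most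
`(1 / 2 + ε) (2 N + 1) ^ d` of the `(2 N + 1) ^ d` vertices of the box of radius `N`. -/
theorem result (d : ℕ) (hd : 2 ≤ d) : ∃ C : ℝ, 1 ≤ C ∧
    ∀ (k N R : ℕ) (ε : ℝ), 1 ≤ R → 0 < ε → ε ≤ 1 →
      C * ((k : ℝ) + 1) ^ (2 * d ^ 2 + 3 * d) * R ≤ ε ^ 2 * √(N : ℝ) →
      ε / (10 ^ 14 * R) ≤ (P d (pc d)).real
        {ω | ∀ x, ((near N k (cluster ω (box 0 (R * N)) x)).ncard : ℝ) ≤
          (1 / 2 + ε) * (2 * (N : ℝ) + 1) ^ d} := by
  obtain ⟨C, hC, h⟩ := Pool.Agent.Y990.CB.fat hd (Pool.Agent.Y990.CB.siteM d)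
    Pool.Agent.Y990.CB.nd_site (Pool.Agent.Y448.CB2.qm_site d)
  refine ⟨C, hC, fun k N R ε hR h0 h1 hN => ?_⟩
  refine (h k N R ε hR h0 h1 hN).trans ?_
  rw [pc_eq, P_eq]
  refine measureReal_mono ?_ (measure_ne_top _ _)
  intro ω hω x
  have e1 : (1 / 2 + ε) * ((2 * N + 1 : ℕ) : ℝ) ^ d = (1 / 2 + ε) * (2 * (N : ℝ) + 1) ^ d := by
    push_cast; rfl
  rcases (near N k (cluster ω (box 0 (R * N)) x)).eq_empty_or_nonempty with he | ⟨y, hy, u, hu, huy⟩
  · rw [he, Set.ncard_empty, Nat.cast_zero]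
    positivity
  · have hu' : u ∈ Pool.Agent.Y990.CB.Bo (0 : V d) (N + k) := by
      intro l
      have a1 := abs_le.1 (hy l)
      have a2 := abs_le.1 (huy l)
      push_cast
      rw [abs_le]
      constructor <;> linarith [a1.1, a1.2, a2.1, a2.2]
    have h2 := hω u hu'
    rw [e1] at h2
    refine le_trans ?_ h2
    norm_cast
    refine Set.ncard_le_ncard ?_ (Pool.Agent.Y990.CB.Fs_fin _ _ _ _ _ _ _)
    rintro z ⟨hz, w, hw, hwz⟩
    refine ⟨hz, w, hwz, ?_⟩
    have c1 : (Pool.Agent.Y990.CB.G (Pool.Agent.Y990.CB.siteM d) ω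
        (Pool.Agent.Y990.CB.Bo (0 : V d) (R * N))).Reachable x w := cluster_sub ω _ x hw
    have c2 : (Pool.Agent.Y990.CB.G (Pool.Agent.Y990.CB.siteM d) ω
        (Pool.Agent.Y990.CB.Bo (0 : V d) (R * N))).Reachable x u := cluster_sub ω _ x hu
    exact c2.symm.trans c1

end

end Pool.Agent.Results.MP_e13933_pr.HalfDenseClusters
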