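import Pool.Agent.Y990.CB.Poly

set_option autoImplicit false

open MeasureTheory Set

/-!
Site percolation on `Z^d`, `d ≥ 2`, at the critical point: with a probability bounded from below any
given number of boxes of polynomial size at distance of order `N` are pairwise disconnected inside
the box of radius `R N`; if there is an infinite cluster at the critical point, then there are
arbitrarily many distinct clusters crossing from the box of radius `N` to the boundary of the box of
radius `R N` with a probability bounded from below.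
-/

namespace Pool.Agent.Results.MP_e13933_pr.ManyCrossingClusters

noncomputable section

/-- Vertices of `Z^d`. -/
abbrev V (d : ℕ) : Type := Fin d → ℤ

/-- The box of radius `N` around the origin. -/
def box (d N : ℕ) : Set (V d) := {x | ∀ i, |x i| ≤ N}

/-- The boundary of the box of radius `N`: the vertices with sup norm `N`. -/
def sphere (d N : ℕ) : Set (V d) := {x | x ∈ box d N ∧ ∃ i, |x i| = N}

/-- The open subgraph inside the region `S`: two vertices at Euclidean distance one are joined if
both are open (`ω x = true`) and in `S`. -/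
def openGraph {d : ℕ} (ω : V d → Bool) (S : Set (V d)) : SimpleGraph (V d) where
  Adj x y := ∑ i, |x i - y i| = 1 ∧ (x ∈ S ∧ ω x = true) ∧ (y ∈ S ∧ ω y = true)
  symm := ⟨fun x y ⟨h1, h2, h3⟩ => ⟨by simpa only [abs_sub_comm] using h1, h3, h2⟩⟩
  loopless := ⟨fun x h => by simpa using h.1⟩

/-- The open cluster of `x` inside the region `S` (empty if `x` is closed). -/
def cluster {d : ℕ} (ω : V d → Bool) (S : Set (V d)) (x : V d) : Set (V d) :=
  {y | (ω x = true ∧ x ∈ S) ∧ (openGraph ω S).Reachable x y}

/-- Site percolation with parameter `p`: all vertices are open with probability `p`,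
independently. -/
def P (d : ℕ) (p : unitInterval) : Measure (V d → Bool) :=
  Measure.infinitePi (fun _ : V d =>
    ENNReal.ofReal (p : ℝ) • Measure.dirac true + ENNReal.ofReal (1 - (p : ℝ)) • Measure.dirac false)

/-- The percolation probability `θ_d(p)`. -/
def theta (d : ℕ) (p : unitInterval) : ℝ := (P d p).real {ω | (cluster ω univ 0).Infinite}

/-- The critical point `p_c(d)`, the supremum of the parameters with `θ_d(p) = 0`. -/
def pc (d : ℕ) : unitInterval :=
  ⟨sSup {t : ℝ | ∃ q : unitInterval, (q : ℝ) = t ∧ theta d q = 0}, by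
    constructor
    · apply Real.sSup_nonneg
      rintro x ⟨q, rfl, _⟩
      exact q.2.1
    · apply Real.sSup_le
      · rintro x ⟨q, rfl, _⟩
        exact q.2.2
      · exact zero_le_one⟩

/-- The crossing clusters: the open clusters of the box of radius `n` which meet both the box of
radius `k` and the boundary of the box of radius `n`. -/
def crossing (d k n : ℕ) (ω : V d → Bool) : Set (Set (V d)) :=
  {C | ∃ x ∈ box d k, C = cluster ω (box d n) x ∧ (C ∩ sphere d n).Nonempty}

lemma nd_mem {d : ℕ} {ω : V d → Bool} {x y : V d} :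
    (∀ c ∈ (Pool.Agent.Y990.CB.siteM d).nd x y, ω c = true) ↔ ω x = true ∧ ω y = true := by
  show (∀ c : V d, c ∈ ({x, y} : Finset (V d)) → ω c = true) ↔ _
  simp only [Finset.mem_insert, Finset.mem_singleton, forall_eq_or_imp, forall_eq]

open Pool.Agent.Y990.CB in
lemma adj_iff {d : ℕ} (ω : V d → Bool) (S : Set (V d)) (x y : V d) :
    (openGraph ω S).Adj x y ↔ (G (siteM d) ω S).Adj x y := by
  show (∑ i, |x i - y i| = 1 ∧ (x ∈ S ∧ ω x = true) ∧ (y ∈ S ∧ ω y = true)) ↔
    (∑ i, |x i - y i| = 1 ∧ x ∈ S ∧ y ∈ S ∧ ∀ c ∈ (siteM d).nd x y, ω c = true)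
  rw [nd_mem]
  tauto

open Pool.Agent.Y990.CB in
lemma graph_eq {d : ℕ} (ω : V d → Bool) (S : Set (V d)) :
    openGraph ω S = G (siteM d) ω S := by
  ext x y
  exact adj_iff ω S x y

open Pool.Agent.Y990.CB in
lemma cluster_sub {d : ℕ} (ω : V d → Bool) (S : Set (V d)) (x : V d) :
    cluster ω S x ⊆ cl (siteM d) ω S x := by
  rintro y ⟨-, h⟩
  rw [graph_eq] at h
  exact h

open Pool.Agent.Y990.CB in
/-- A vertex connected to a different vertex is open. -/
lemma open_of {d : ℕ} {ω : V d → Bool} {S : Set (V d)} {x y : V d} (hxy : y ≠ x)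
    (hr : (G (siteM d) ω S).Reachable x y) : ω x = true ∧ x ∈ S := by
  obtain ⟨q⟩ := hr
  cases q with
  | nil => exact absurd rfl hxy
  | cons hadj _ => exact ⟨(nd_mem.1 hadj.2.2.2).1, hadj.2.1⟩

open Pool.Agent.Y990.CB in
lemma infinite_iff {d : ℕ} (ω : V d → Bool) (x : V d) :
    (cluster ω univ x).Infinite ↔ ω ∈ Perc (siteM d) x := by
  constructor
  · intro h
    exact h.mono (cluster_sub ω univ x)
  · intro h
    obtain ⟨y, hy, hyx⟩ := Set.Infinite.exists_notMem_finset h {x}
    have hyx' : y ≠ x := by simpa using hyx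
    have hx := open_of hyx' hy
    refine Set.Infinite.mono ?_ h
    intro z hz
    refine ⟨hx, ?_⟩
    rw [graph_eq]
    exact hz

open Pool.Agent.Y990.CB in
lemma P_eq (d : ℕ) (p : unitInterval) : P d p = mu (siteM d) p := rfl

open Pool.Agent.Y990.CB in
lemma theta_eq (d : ℕ) (p : unitInterval) : theta d p = th (siteM d) p := by
  unfold theta th
  rw [P_eq]
  congr 1
  ext ω
  exact infinite_iff ω 0

open Pool.Agent.Y990.CB in
lemma pc_eq (d : ℕ) : pc d = Pool.Agent.Y990.CB.pc (siteM d) := by
  apply Subtype.ext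
  show sSup {t : ℝ | ∃ q : unitInterval, (q : ℝ) = t ∧ theta d q = 0} =
    sSup {x : ℝ | ∃ q : unitInterval, (q : ℝ) = x ∧ th (siteM d) q = 0}
  simp only [theta_eq]

open Pool.Agent.Y990.CB in
lemma box_eq (d N : ℕ) : box d N = Bo (0 : V d) N := by
  ext x
  simp only [box, Bo, mem_ofPred_eq, Pi.zero_apply, sub_zero]

open Pool.Agent.Y990.CB in
lemma sphere_eq (d N : ℕ) : sphere d N = Fr (0 : V d) N := by
  ext x
  simp only [sphere, Fr, box_eq, mem_ofPred_eq, Pi.zero_apply, sub_zero]

/-- The boxes of radius `k` around the points `x 0, ..., x (K - 1)` are pairwise disconnected inside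
the box of radius `L`: no open cluster of the box of radius `L` meets two of them. -/
def disconnected (d L k K : ℕ) (x : Fin K → V d) : Set (V d → Bool) :=
  {ω | ∀ i j : Fin K, i ≠ j → ∀ u v : V d, u - x i ∈ box d k → v - x j ∈ box d k →
    v ∉ cluster ω (box d L) u}

open Pool.Agent.Y990.CB in
/-- Vertices of the small box are not on the boundary of the large box. -/
lemma ne_of_box {d k n : ℕ} (h : k < n) {x y : V d} (hx : x ∈ Bo (0 : V d) k)
    (hy : y ∈ Fr (0 : V d) n) : y ≠ x := by
  rintro rfl
  obtain ⟨i, hi⟩ := hy.2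
  have h1 := hx i
  rw [hi] at h1
  have : n ≤ k := by exact_mod_cast h1
  omega

open Pool.Agent.Y990.CB in
/-- The crossing clusters in the terms of the library. -/
lemma cross_of {d k n : ℕ} (h : k < n) (ω : V d → Bool) {x : V d} (hx : x ∈ Bo (0 : V d) k)
    (ha : Am (siteM d) ω 0 n x) : cluster ω (box d n) x ∈ crossing d k n ω ∧
      cluster ω (box d n) x = cl (siteM d) ω (Bo 0 n) x := by
  obtain ⟨x', hx', hr⟩ := ha
  have ho := open_of (ne_of_box h hx hx') hr
  have e : cluster ω (box d n) x = cl (siteM d) ω (Bo 0 n) x := by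
    refine Subset.antisymm ?_ ?_
    · rw [box_eq]
      exact cluster_sub ω _ x
    · intro y hy
      refine ⟨?_, ?_⟩
      · rw [box_eq]; exact ho
      · rw [graph_eq, box_eq]; exact hy
  refine ⟨⟨x, by rw [box_eq]; exact hx, rfl, x', ?_, ?_⟩, e⟩
  · rw [e]; exact hr
  · rw [sphere_eq]; exact hx'

open Pool.Agent.Y990.CB in
/-- Membership in translated boxes. -/
lemma sub_mem {d n : ℕ} {x z : V d} : x - z ∈ box d n ↔ x ∈ Bo z n := by
  simp only [box, Bo, mem_ofPred_eq, Pi.sub_apply]

open Pool.Agent.Y990.CB in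
lemma nm_box {d N : ℕ} {x : V d} : nm x ≤ N ↔ x ∈ box d N := by
  rw [nm_le]
  rfl

/-- **Disconnected boxes and crossing clusters at the critical point.**  Let `d ≥ 2`.

* There is a constant `C` such that for all `K`, all `R ≥ 1`, all `k` and `N` with
  `C (k + 1) ^ (2 d ^ 2 + 3 d) K ^ 2 R ≤ √N` and all `K` points of the box of radius `N` with mutual
  distances at least `N / K` in the sup norm, the `P_{p_c}`-probability that the boxes of radius `k`
  around these points are pairwise disconnected inside the box of radius `R N` is at least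
  `(1 / (2 10 ^ 14 K R)) ^ (K choose 2)`.
* If `θ(p_c) > 0`, then for all `K ≥ 1` and `R ≥ 2` and all large `N` the `P_{p_c}`-probability that
  at least `K` distinct open clusters of the box of radius `R N` meet both the box of radius `N` and
  the boundary of the box of radius `R N` is at least half of this number. -/
theorem result (d : ℕ) (hd : 2 ≤ d) :
    (∃ C : ℝ, 1 ≤ C ∧ ∀ (K R k N : ℕ) (x : Fin K → V d), 1 ≤ R →
      C * ((k : ℝ) + 1) ^ (2 * d ^ 2 + 3 * d) * K ^ 2 * R ≤ √(N : ℝ) →
      (∀ i, x i ∈ box d N) → (∀ i j, i ≠ j → ∃ l, (N : ℤ) ≤ K * |x i l - x j l|) →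
      (1 / (2 * 10 ^ 14 * (K : ℝ) * R)) ^ (K.choose 2) ≤
        (P d (pc d)).real (disconnected d (R * N) k K x)) ∧
    (0 < theta d (pc d) → ∀ K R : ℕ, 1 ≤ K → 2 ≤ R → ∃ N0 : ℕ, ∀ N : ℕ, N0 ≤ N →
      (1 / (2 * 10 ^ 14 * (K : ℝ) * R)) ^ (K.choose 2) / 2 ≤
        (P d (pc d)).real {ω | (K : ℕ∞) ≤ (crossing d N (R * N) ω).encard}) := by
  have hN : Pool.Agent.Y990.CB.Nd (Pool.Agent.Y990.CB.siteM d) := Pool.Agent.Y990.CB.nd_site
  have hQ : Pool.Agent.Y990.CB.Qm (Pool.Agent.Y990.CB.siteM d) := Pool.Agent.Y448.CB2.qm_site d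
  constructor
  · obtain ⟨C, hC, h⟩ := Pool.Agent.Y990.CB.polyK hd (Pool.Agent.Y990.CB.siteM d) hN hQ
    refine ⟨C, hC, fun K R k N x hR hCN hx hxx => ?_⟩
    have hnm : ∀ i j, i ≠ j → N ≤ K * Pool.Agent.Y990.CB.nm (x i - x j) := by
      intro i j hij
      obtain ⟨l, hl⟩ := hxx i j hij
      have h1 : |x i l - x j l| ≤ (Pool.Agent.Y990.CB.nm (x i - x j) : ℤ) := by
        have := (Pool.Agent.Y990.CB.nm_le (v := x i - x j)
          (n := Pool.Agent.Y990.CB.nm (x i - x j))).1 le_rfl l
        simpa using this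
      have h2 : (N : ℤ) ≤ K * (Pool.Agent.Y990.CB.nm (x i - x j) : ℤ) :=
        hl.trans (mul_le_mul_of_nonneg_left h1 (by positivity))
      exact_mod_cast h2
    refine (h K R k N x hR hCN (fun i => nm_box.2 (hx i)) hnm).trans ?_
    rw [P_eq, pc_eq]
    refine measureReal_mono ?_ (measure_ne_top _ _)
    intro ω hω i j hij u v hu hv hc
    apply hω i j hij
    refine ⟨u, sub_mem.1 hu, v, sub_mem.1 hv, ?_⟩
    have := cluster_sub ω _ u hc
    rw [box_eq] at this
    exact this
  · intro hθ K R hK hR
    rw [theta_eq, pc_eq] at hθ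
    obtain ⟨N0, h⟩ := Pool.Agent.Y990.CB.finC hd (Pool.Agent.Y990.CB.siteM d) hN hθ K R hK (by omega)
    refine ⟨max N0 1, fun N hNN => (h N ((le_max_left _ _).trans hNN)).trans ?_⟩
    have hN1 : 1 ≤ N := (le_max_right _ _).trans hNN
    rw [P_eq, pc_eq]
    refine measureReal_mono ?_ (measure_ne_top _ _)
    rintro ω ⟨x, hx1, hx2⟩
    have hlt : N < R * N := by nlinarith
    have hcr := fun i => cross_of hlt ω (hx1 i).1 (hx1 i).2
    have hinj : Function.Injective (fun i => cluster ω (box d (R * N)) (x i)) := by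
      intro i j hij
      by_contra hne
      apply hx2 i j hne
      have h1 : x j ∈ Pool.Agent.Y990.CB.cl (Pool.Agent.Y990.CB.siteM d) ω
          (Pool.Agent.Y990.CB.Bo 0 (R * N)) (x i) := by
        have e : cluster ω (box d (R * N)) (x i) = cluster ω (box d (R * N)) (x j) := hij
        rw [(hcr i).2, (hcr j).2] at e
        rw [e]
        exact SimpleGraph.Reachable.refl _
      exact h1
    have hr : Set.range (fun i => cluster ω (box d (R * N)) (x i)) ⊆ crossing d N (R * N) ω := by
      rintro C ⟨i, rfl⟩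
      exact (hcr i).1
    calc (K : ℕ∞) = (Set.range (fun i => cluster ω (box d (R * N)) (x i))).encard := by
          rw [← Set.image_univ, hinj.encard_image, Set.encard_univ]
          simp
      _ ≤ _ := Set.encard_le_encard hr

end

end Pool.Agent.Results.MP_e13933_pr.ManyCrossingClusters
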