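import Pool.Agent.W783.Perc.Fin

/-!
Site percolation on `ℤ^(n+1) = ℤ × ℤ^n`, `n ≥ 1` (so in every dimension at least two, dimensions
three to ten included), perturbed by arbitrarily weak random long bonds, which are only present on an
arbitrarily sparse periodic set of lines parallel to the first axis: there is no infinite cluster at
the critical point of the perturbed model, for every strength `β > 0` of the perturbation, and its
critical point tends to the critical point of nearest-neighbour site percolation as `β` tends to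
zero. Consequently there are finite-range models with critical points arbitrarily close to the one of
nearest-neighbour site percolation and with percolation probability at criticality arbitrarily small.

The proof is in the starting files `Pool.Agent.W783.Perc`.
-/

set_option autoImplicit false

namespace Pool.Agent.Results.MP_e13933_pr.SiteSparseLines

open MeasureTheory Set Filter
open scoped Topology

noncomputable section

/-- The vertices of `ℤ^(n+1) = ℤ × ℤ^n`. -/
abbrev V (n : ℕ) : Type := ℤ × (Fin n → ℤ)

/-- Nearest neighbours: vertices at `ℓ¹`-distance one. -/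
def NN {n : ℕ} (x y : V n) : Prop := |x.1 - y.1| + ∑ i, |x.2 i - y.2 i| = 1

/-- `x` and `y` lie on the same special line (parallel to the first axis, with all other coordinates
divisible by `m`) and their distance is at least `2`. -/
def Lg {n : ℕ} (m : ℕ) (x y : V n) : Prop :=
  x.2 = y.2 ∧ (∀ i, (m : ℤ) ∣ x.2 i) ∧ 2 ≤ (x.1 - y.1).natAbs

/-- Nearest-neighbour bonds. -/
def isNN {n : ℕ} (e : Sym2 (V n)) : Prop := ∃ x y, e = s(x, y) ∧ NN x y

/-- Long bonds. -/
def isLg {n : ℕ} (m : ℕ) (e : Sym2 (V n)) : Prop := ∃ x y, e = s(x, y) ∧ Lg m x y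

/-- Length of a bond in the first direction. -/
def len {n : ℕ} (e : Sym2 (V n)) : ℕ :=
  Sym2.lift ⟨fun x y : V n => (x.1 - y.1).natAbs, fun x y => by
    show (x.1 - y.1).natAbs = (y.1 - x.1).natAbs
    omega⟩ e

/-- The law of a coin which shows `true` with probability `q`. -/
def coin (q : unitInterval) : Measure Bool :=
  ENNReal.ofReal (q : ℝ) • Measure.dirac true + ENNReal.ofReal (1 - (q : ℝ)) • Measure.dirac false

/-! ### Nearest-neighbour site percolation -/

/-- The graph of the open sites; nearest neighbours are adjacent. -/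
def siteGraph {n : ℕ} (ω : V n → Bool) : SimpleGraph (V n) where
  Adj x y := NN x y ∧ ω x = true ∧ ω y = true
  symm := ⟨fun x y ⟨h1, h2, h3⟩ => ⟨by
    unfold NN at h1 ⊢
    rw [abs_sub_comm, ← h1]
    congr 1
    exact Finset.sum_congr rfl fun i _ => abs_sub_comm _ _, h3, h2⟩⟩
  loopless := ⟨fun x h => by
    have h1 := h.1
    simp [NN] at h1⟩

/-- Nearest-neighbour site percolation on `ℤ^(n+1)`: the probability that the origin lies in an
infinite open cluster. -/
def thetaSite (n : ℕ) (a : unitInterval) : ℝ :=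
  (Measure.infinitePi (fun _ : V n => coin a)).real
    {ω | {y | (siteGraph ω).Reachable 0 y}.Infinite}

/-! ### The perturbed model -/

/-- Probability that a long bond of length `k` is open: `1 - exp (-β k^(-s))`. -/
def lrp (β : NNReal) (s : ℝ) (k : ℕ) : unitInterval :=
  ⟨1 - Real.exp (-((β : ℝ) * (k : ℝ) ^ (-s))), by
    have h : 0 ≤ (β : ℝ) * (k : ℝ) ^ (-s) := mul_nonneg β.2 (Real.rpow_nonneg (Nat.cast_nonneg k) _)
    constructor
    · rw [sub_nonneg]
      exact Real.exp_le_one_iff.mpr (by linarith)
    · linarith [Real.exp_pos (-((β : ℝ) * (k : ℝ) ^ (-s)))]⟩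

open scoped Classical in
/-- The parameters: sites are open with probability `a`, nearest-neighbour bonds with probability
one, long bonds of length `k` with probability `1 - exp (-β k^(-s))`. -/
def prob {n : ℕ} (a : unitInterval) (β : NNReal) (s : ℝ) (m : ℕ) : V n ⊕ Sym2 (V n) → unitInterval
  | Sum.inl _ => a
  | Sum.inr e => if isNN e then 1 else if isLg m e then lrp β s (len e) else 0

/-- The graph of the open bonds of the set `E` with both ends open. -/
def openGraph {n : ℕ} (E : Set (Sym2 (V n))) (ω : V n ⊕ Sym2 (V n) → Bool) :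
    SimpleGraph (V n) where
  Adj x y := x ≠ y ∧ s(x, y) ∈ E ∧ ω (Sum.inl x) = true ∧ ω (Sum.inl y) = true ∧
    ω (Sum.inr s(x, y)) = true
  symm := ⟨fun x y ⟨h1, h4, h5, h6, h7⟩ =>
    ⟨h1.symm, by rwa [Sym2.eq_swap], h6, h5, by rwa [Sym2.eq_swap]⟩⟩
  loopless := ⟨fun x h => h.1 rfl⟩

/-- The probability that the origin lies in an infinite cluster of the perturbed model restricted to
the bonds of `E`. -/
def thetaE (n : ℕ) (m : ℕ) (s : ℝ) (β : NNReal) (E : Set (Sym2 (V n))) (a : unitInterval) : ℝ :=
  (Measure.infinitePi (fun c => coin (prob (n := n) a β s m c))).real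
    {ω | {y | (openGraph E ω).Reachable 0 y}.Infinite}

/-- The percolation probability of the perturbed model. -/
def theta (n : ℕ) (m : ℕ) (s : ℝ) (β : NNReal) (a : unitInterval) : ℝ :=
  thetaE n m s β {e | isNN e ∨ isLg m e} a

/-- The percolation probability of the finite-range model, in which only the long bonds of length at
most `K` are kept. -/
def thetaK (n : ℕ) (m : ℕ) (s : ℝ) (β : NNReal) (K : ℕ) (a : unitInterval) : ℝ :=
  thetaE n m s β {e | isNN e ∨ (isLg m e ∧ len e ≤ K)} a

/-- The critical point of a one-parameter model with percolation probability `f`: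
`sup {q : f q = 0}`. -/
def crit (f : unitInterval → ℝ) : unitInterval :=
  ⟨sSup {x : ℝ | ∃ q : unitInterval, (q : ℝ) = x ∧ f q = 0}, by
    constructor
    · apply Real.sSup_nonneg
      rintro x ⟨q, rfl, _⟩
      exact q.2.1
    · apply Real.sSup_le
      · rintro x ⟨q, rfl, _⟩
        exact q.2.2
      · exact zero_le_one⟩

/-! ### Bridges -/

lemma thetaE_eq (n m : ℕ) (s : ℝ) (β : NNReal) (E : Set (Sym2 (V n))) (a : unitInterval) :
    thetaE n m s β E a =
      (W783.PC.pm (W783.PC.prob (n := n) a 1 β s m)).real (W783.PC.Perc E 0) := by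
  have h1 : (fun c => coin (prob (n := n) a β s m c)) =
      fun c => W783.PC.bern (W783.PC.prob (n := n) a 1 β s m c) := by
    funext c
    cases c <;> rfl
  have h2 : {ω : V n ⊕ Sym2 (V n) → Bool | {y | (openGraph E ω).Reachable 0 y}.Infinite} =
      W783.PC.Perc E 0 := by
    have h3 : ∀ ω : V n ⊕ Sym2 (V n) → Bool, openGraph E ω = W783.PC.G E ω univ := by
      intro ω
      ext x y
      simp [openGraph, W783.PC.G]
    ext ω
    show {y | (openGraph E ω).Reachable 0 y}.Infinite ↔ (W783.PC.cl E ω univ 0).Infinite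
    rw [h3]
    rfl
  unfold thetaE
  rw [h1, h2]
  rfl

lemma crit_eq {f g : unitInterval → ℝ} (h : f = g) : crit f = W783.PC.crit g := by
  subst h
  rfl

lemma inl_marg {n : ℕ} (a : unitInterval) :
    (W783.PC.pm (fun c : V n ⊕ Sym2 (V n) => match c with | Sum.inl _ => a | Sum.inr _ => 1)).map
      (fun ω (x : V n) => ω (Sum.inl x)) = Measure.infinitePi (fun _ : V n => coin a) := by
  have hpr : ∀ q : unitInterval, IsProbabilityMeasure (coin q) := fun q =>
    inferInstanceAs (IsProbabilityMeasure (W783.PC.bern q))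
  apply Measure.eq_infinitePi
  intro t u hu
  have hm : Measurable (fun (ω : V n ⊕ Sym2 (V n) → Bool) (x : V n) => ω (Sum.inl x)) :=
    measurable_pi_lambda _ fun x => measurable_pi_apply _
  rw [Measure.map_apply hm (MeasurableSet.pi (Set.to_countable _) fun i _ => hu i)]
  have h1 : (fun (ω : V n ⊕ Sym2 (V n) → Bool) (x : V n) => ω (Sum.inl x)) ⁻¹' (t : Set (V n)).pi u
      = ((t.map Function.Embedding.inl : Finset (V n ⊕ Sym2 (V n))) : Set _).pi
        (fun c => match c with | Sum.inl x => u x | Sum.inr _ => univ) := by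
    ext ω
    constructor
    · intro h c hc
      rw [Finset.mem_coe, Finset.mem_map] at hc
      obtain ⟨x, hx, rfl⟩ := hc
      exact h x hx
    · intro h x hx
      exact h (Sum.inl x) (Finset.mem_coe.2 (Finset.mem_map.2 ⟨x, hx, rfl⟩))
  rw [h1]
  unfold W783.PC.pm
  rw [Measure.infinitePi_pi]
  · simp
    rfl
  · rintro (x | e) _
    · exact hu x
    · exact MeasurableSet.univ

lemma thetaSite_eq (n : ℕ) (a : unitInterval) : thetaSite n a = W783.PC.thetaZ n a 1 := by
  classical
  unfold W783.PC.thetaZ
  set r : V n ⊕ Sym2 (V n) → unitInterval :=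
    (fun c => match c with | Sum.inl _ => a | Sum.inr _ => 1) with hr
  -- all the bonds are open
  have hall : ∀ᵐ ω ∂(W783.PC.pm r), ∀ e : Sym2 (V n), ω (Sum.inr e) = true := by
    rw [ae_all_iff]
    intro e
    have h1 : (W783.PC.pm r).map (fun ω => ω (Sum.inr e)) = W783.PC.bern 1 := by
      unfold W783.PC.pm
      exact Measure.infinitePi_map_eval _ (Sum.inr e)
    have h2 : (W783.PC.pm r) ((fun ω => ω (Sum.inr e)) ⁻¹' {false}) = 0 := by
      rw [← Measure.map_apply (measurable_pi_apply _) (measurableSet_singleton _), h1]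
      simp [W783.PC.bern]
    rw [ae_iff]
    convert h2 using 2
    ext ω
    simp
  have hset : ∀ᵐ ω ∂(W783.PC.pm r), ω ∈ W783.PC.Perc {e : Sym2 (V n) | W783.PC.isNN e} 0 ↔
      ω ∈ (fun (ω : V n ⊕ Sym2 (V n) → Bool) (x : V n) => ω (Sum.inl x)) ⁻¹'
        {ω | {y | (siteGraph ω).Reachable 0 y}.Infinite} := by
    filter_upwards [hall] with ω hω
    have hg : W783.PC.G {e : Sym2 (V n) | W783.PC.isNN e} ω univ =
        siteGraph (fun x => ω (Sum.inl x)) := by
      ext x y
      simp only [W783.PC.G, siteGraph, mem_univ, true_and, hω, and_true]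
      constructor
      · rintro ⟨h1, ⟨u, v, h2, h3⟩, h4, h5⟩
        refine ⟨?_, h4, h5⟩
        have h3' : NN u v := h3
        rw [Sym2.eq_iff] at h2
        rcases h2 with ⟨rfl, rfl⟩ | ⟨rfl, rfl⟩
        · exact h3'
        · unfold NN at h3' ⊢
          rw [abs_sub_comm, ← h3']
          congr 1
          exact Finset.sum_congr rfl fun i _ => abs_sub_comm _ _
      · rintro ⟨h1, h2, h3⟩
        refine ⟨?_, ⟨x, y, rfl, h1⟩, h2, h3⟩
        rintro rfl
        simp [NN] at h1
    show (W783.PC.cl _ ω univ 0).Infinite ↔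
      {y | (siteGraph (fun x => ω (Sum.inl x))).Reachable 0 y}.Infinite
    rw [← hg]
    rfl
  have hmeas : MeasurableSet {ω : V n → Bool | {y | (siteGraph ω).Reachable 0 y}.Infinite} := by
    -- by taking all bonds open
    have hm2 : Measurable (fun (ω : V n → Bool) (c : V n ⊕ Sym2 (V n)) =>
        (match c with | Sum.inl x => ω x | Sum.inr _ => true : Bool)) := by
      refine measurable_pi_lambda _ fun c => ?_
      cases c with
      | inl x => exact measurable_pi_apply x
      | inr e => exact measurable_const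
    have h3 := hm2 (Pool.Agent.W975.PC.s_perc_meas n {e : Sym2 (V n) | W783.PC.isNN e} 0)
    convert h3 using 1
    ext ω
    have hg : W783.PC.G {e : Sym2 (V n) | W783.PC.isNN e}
        (fun c : V n ⊕ Sym2 (V n) => (match c with | Sum.inl x => ω x | Sum.inr _ => true : Bool))
        univ = siteGraph ω := by
      ext x y
      simp only [W783.PC.G, siteGraph, mem_univ, true_and, and_true]
      constructor
      · rintro ⟨h1, ⟨u, v, h2, h3⟩, h4, h5⟩
        refine ⟨?_, h4, h5⟩
        have h3' : NN u v := h3
        rw [Sym2.eq_iff] at h2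
        rcases h2 with ⟨rfl, rfl⟩ | ⟨rfl, rfl⟩
        · exact h3'
        · unfold NN at h3' ⊢
          rw [abs_sub_comm, ← h3']
          congr 1
          exact Finset.sum_congr rfl fun i _ => abs_sub_comm _ _
      · rintro ⟨h1, h2, h3⟩
        refine ⟨?_, ⟨x, y, rfl, h1⟩, h2, h3⟩
        rintro rfl
        simp [NN] at h1
    show {y | (siteGraph ω).Reachable 0 y}.Infinite ↔ (W783.PC.cl _ _ univ 0).Infinite
    rw [← hg]
    rfl
  unfold thetaSite
  rw [← inl_marg a]
  have hm : Measurable (fun (ω : V n ⊕ Sym2 (V n) → Bool) (x : V n) => ω (Sum.inl x)) :=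
    measurable_pi_lambda _ fun x => measurable_pi_apply _
  rw [measureReal_def, measureReal_def, Measure.map_apply hm hmeas]
  congr 1
  apply measure_congr
  filter_upwards [hset] with ω h
  exact propext h.symm

/-- **Site percolation with weak long bonds on sparse lines: no infinite cluster at criticality.**
Let `n ≥ 1` (dimension `n + 1 ≥ 2`), `m ≥ 1` and `1 < s < 2`. (1) For every `β > 0` the critical
point `a_c(β)` of the perturbed model lies in `(0, 1)`, and there is no infinite cluster at it.
(2) As `β → 0`, `a_c(β)` tends to the critical point of nearest-neighbour site percolation on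
`ℤ^(n+1)`. (3) For every `ε > 0`, every small `β` and every large `K`, the finite-range model with
parameters `β`, `K` has a critical point within `ε` of the one of nearest-neighbour site percolation,
and its percolation probability at its critical point is at most `ε`. -/
theorem result {n m : ℕ} {s : ℝ} (hn : 1 ≤ n) (hm : 1 ≤ m) (hs : 1 < s) (hs2 : s < 2) :
    (∀ β : NNReal, 0 < β →
      0 < crit (theta n m s β) ∧ crit (theta n m s β) < 1 ∧
        theta n m s β (crit (theta n m s β)) = 0) ∧
    Tendsto (fun β : NNReal => (crit (theta n m s β) : ℝ)) (𝓝 0) (𝓝 (crit (thetaSite n) : ℝ)) ∧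
    (∀ ε : ℝ, 0 < ε → ∃ β0 : NNReal, 0 < β0 ∧ ∀ β : NNReal, 0 < β → β ≤ β0 →
      ∃ K0 : ℕ, ∀ K ≥ K0,
        |(crit (thetaK n m s β K) : ℝ) - crit (thetaSite n)| ≤ ε ∧
          thetaK n m s β K (crit (thetaK n m s β K)) ≤ ε) := by
  have h1 : ∀ β, theta n m s β = fun a => W783.PC.theta n a 1 β s m := by
    intro β
    funext a
    exact thetaE_eq n m s β _ a
  have h2 : ∀ β K, thetaK n m s β K = fun a => W783.PC.thetaK n a 1 β s m K := by
    intro β K
    funext a
    exact thetaE_eq n m s β _ a
  have h3 : thetaSite n = fun a => W783.PC.thetaZ n a 1 := by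
    funext a
    exact thetaSite_eq n a
  have e1 : ∀ β, crit (theta n m s β) = W783.PC.acS n m s β := fun β => crit_eq (h1 β)
  have e2 : ∀ β K, crit (thetaK n m s β K) = W783.PC.acSK n m s β K := fun β K => crit_eq (h2 β K)
  have e3 : crit (thetaSite n) = W783.PC.acZ n := crit_eq h3
  obtain ⟨m1, m2⟩ := W783.PC.site_main (n := n) (m := m) (s := s) hn hm hs hs2
  refine ⟨fun β hβ => ?_, ?_, fun ε hε => ?_⟩
  · obtain ⟨a1, a2, a3⟩ := m1 β hβ
    rw [e1, h1]
    exact ⟨a1, a2, a3⟩
  · simp_rw [e1, e3]
    exact m2
  · obtain ⟨β0, hβ0, h⟩ := W783.PC.site_finite (n := n) (m := m) (s := s) hn hm hs hs2 hε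
    refine ⟨β0, hβ0, fun β hβ hle => ?_⟩
    obtain ⟨K0, hK⟩ := h β hβ hle
    refine ⟨K0, fun K hK0 => ?_⟩
    obtain ⟨b1, b2⟩ := hK K hK0
    rw [e2, e3, h2]
    exact ⟨b1, b2⟩

end

end Pool.Agent.Results.MP_e13933_pr.SiteSparseLines
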